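import Pool.Agent.T2H47.LT.Main

/-!
# Every finite group is the automorphism group of a finite locally toroidal 4-polytope

Q1: yes. For every finite group `Γ` there is a finite abstract 4-polytope all of whose facets and
vertex-figures are spherical or toroidal, at least one vertex-figure being toroidal, and whose
automorphism group is isomorphic to `Γ`. (The 4-polytopes constructed are simplicial: their facets
are tetrahedra.)

Method. An explicit three-dimensional simplicial pseudomanifold with 13 vertices and 57 tetrahedra,
in which the links of two vertices are tori and the links of the other vertices are spheres, has a
cocycle with values in the free group of rank two, and a tetrahedron which is determined by the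
degrees of its vertices. For two permutations `a`, `b` of a finite set `X` which generate a
transitive group the cocycle defines a connected covering with sheets `X`; because of the special
tetrahedron its automorphisms are exactly the permutations of `X` which commute with `a` and `b`.
With `X = Γ × Fin |Γ|`, `a (γ, i) = (γ, i + 1)`, `b (γ, i) = (γ e_i, i)`, where `e` enumerates `Γ`
and `e_0 = 1`, these are the left multiplications by the elements of `Γ`.
-/

set_option autoImplicit false

namespace Pool.Agent.Results.MP_a63caf_co.EveryFiniteGroup

open Pool.Agent.T2H47.LT

universe u

/-- **Every finite group is the automorphism group of a finite locally toroidal 4-polytope**, and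
one can require in addition that at least one vertex-figure is toroidal. -/
theorem result : ∀ (Γ : Type u) [Group Γ] [Finite Γ],
    ∃ (P : Type u) (_ : PartialOrder P) (_ : BoundedOrder P), Finite P ∧ IsLocallyToroidal P ∧
      (∃ v : P, rank v = 0 ∧ Toroidal v ⊤) ∧ Nonempty ((P ≃o P) ≃* Γ) := by
  intro Γ _ _
  exact main Γ

end Pool.Agent.Results.MP_a63caf_co.EveryFiniteGroup
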